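import Mathlib

set_option autoImplicit false

/-!
# Eigenvector approximants of the generalized Rogers-Ramanujan continued fraction

For `a = e^(2 π i j / k)`, `x = e^(2 π i l / m)` with `gcd(j,k) = gcd(l,m) = 1`, `5 ∣ m`, `k ∣ m` the
vectors `(P_r, Q_r)` with `r ≡ s₀ - 1` or `s₀ - 2 (mod m)` are eigenvectors of the matrix `A` with
eigenvalues `(1 ± √5) / 2`.

Proof. `a = x^c` with `c ≡ - s₀ (mod m)`, so the recurrence is `R_n = R_{n-1} + x^(n+c) R_{n-2}`, and it
is enough to treat products of the matrices `B(N) = (1, 1; x^N, 0)` over full periods starting at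
`N = 0` and at `N = -1`. A finite form of the Rogers-Ramanujan identities (Schur) gives the upper left
entry `λ` of `B(0) ⋯ B(m-1)` and `λ² = λ + 1`; the trace of this product is `1` (a rotation argument)
and its determinant is `-1`; so the product of two further entries vanishes, and these entries are
complex conjugates of each other.
-/

namespace Pool.Agent.Results.MP_b3b2bb_nt.EigenvectorApproximants

open Finset

/-- The solution of `R_n = R_{n-1} + a x^n R_{n-2}` (`n ≥ 1`) with `R_{-1} = 1` and `R_0 = r₀`, with the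
index shifted by one: `R a x r₀ n` is `R_{n-1}`. -/
noncomputable def R (a x r₀ : ℂ) : ℕ → ℂ
  | 0 => 1
  | 1 => r₀
  | n + 2 => R a x r₀ (n + 1) + a * x ^ (n + 1) * R a x r₀ n

/-- `P_n`, `n ≥ 0`: `P_{-1} = 1`, `P_0 = 1`, `P_n = P_{n-1} + a x^n P_{n-2}` for `n ≥ 1`. -/
noncomputable def P (a x : ℂ) (n : ℕ) : ℂ := R a x 1 (n + 1)

/-- `Q_n`, `n ≥ 0`: `Q_{-1} = 1`, `Q_0 = 1 + a`, `Q_n = Q_{n-1} + a x^n Q_{n-2}` for `n ≥ 1`. -/
noncomputable def Q (a x : ℂ) (n : ℕ) : ℂ := R a x (1 + a) (n + 1)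

/-- The matrix `A` (for `m ≥ 3`). -/
noncomputable def A (a x : ℂ) (m : ℕ) : Matrix (Fin 2) (Fin 2) ℂ :=
  !![a * x ^ (m - 1) * P a x (m - 3), P a x (m - 2);
     a * x ^ (m - 1) * Q a x (m - 3), Q a x (m - 2)]

/-! ### Gaussian binomial coefficients -/

/-- the Gaussian binomial coefficient at `x`, with an integer lower index -/
noncomputable def gb (x : ℂ) : ℕ → ℤ → ℂ
  | 0, r => if r = 0 then 1 else 0
  | n + 1, r => gb x n (r - 1) + x ^ r * gb x n r

lemma gb_succ (x : ℂ) (n : ℕ) (r : ℤ) : gb x (n + 1) r = gb x n (r - 1) + x ^ r * gb x n r := rfl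

lemma gb_neg (x : ℂ) (n : ℕ) : ∀ r : ℤ, r < 0 → gb x n r = 0 := by
  induction n with
  | zero => intro r hr; unfold gb; rw [if_neg (by omega)]
  | succ n ih => intro r hr; rw [gb_succ, ih _ (by omega), ih _ hr]; ring

lemma gb_gt (x : ℂ) (n : ℕ) : ∀ r : ℤ, (n : ℤ) < r → gb x n r = 0 := by
  induction n with
  | zero => intro r hr; unfold gb; rw [if_neg (by push_cast at hr; omega)]
  | succ n ih =>
    intro r hr
    push_cast at hr
    rw [gb_succ, ih _ (by omega), ih _ (by omega)]; ring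

lemma gb_zero (x : ℂ) (n : ℕ) : gb x n 0 = 1 := by
  induction n with
  | zero => rfl
  | succ n ih => rw [gb_succ, gb_neg x n _ (by norm_num), ih]; simp

lemma gb_self (x : ℂ) (n : ℕ) : gb x n n = 1 := by
  induction n with
  | zero => rfl
  | succ n ih =>
    have h1 : gb x n ((n + 1 : ℕ) : ℤ) = 0 := gb_gt x n _ (by push_cast; omega)
    have h2 : ((n + 1 : ℕ) : ℤ) - 1 = n := by push_cast; ring
    rw [gb_succ, h1, h2, ih]; ring

lemma gb_succ' {x : ℂ} (hx : x ≠ 0) (n : ℕ) :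
    ∀ r : ℤ, gb x (n + 1) r = gb x n r + x ^ ((n : ℤ) + 1 - r) * gb x n (r - 1) := by
  induction n with
  | zero =>
    intro r
    rw [gb_succ]
    unfold gb
    rcases eq_or_ne r 0 with rfl | h0
    · simp
    · rcases eq_or_ne r 1 with rfl | h1
      · simp
      · rw [if_neg h0, if_neg (by omega)]; ring
  | succ n ih =>
    intro r
    rw [gb_succ]
    have a1 := ih (r - 1)
    have a2 := ih r
    have a3 := gb_succ x n r
    have a4 := gb_succ x n (r - 1)
    have e1 : x ^ r * x ^ ((n : ℤ) + 1 - r) = x ^ ((n : ℤ) + 1) := by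
      rw [← zpow_add₀ hx]; congr 1; ring
    have e2 : x ^ (((n + 1 : ℕ) : ℤ) + 1 - r) * x ^ (r - 1) = x ^ ((n : ℤ) + 1) := by
      rw [← zpow_add₀ hx]; congr 1; push_cast; ring
    have e3 : x ^ ((n : ℤ) + 1 - (r - 1)) = x ^ (((n + 1 : ℕ) : ℤ) + 1 - r) := by
      congr 1; push_cast; ring
    rw [e3] at a1
    linear_combination a1 + x ^ r * a2 - a3 - x ^ (((n + 1 : ℕ) : ℤ) + 1 - r) * a4 +
      (gb x n (r - 1)) * e1 - (gb x n (r - 1)) * e2

lemma gb_mul {x : ℂ} (hx : x ≠ 0) (n : ℕ) (r : ℤ) :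
    (x ^ r - 1) * gb x (n + 1) r = (x ^ (n + 1) - 1) * gb x n (r - 1) := by
  have h1 := gb_succ x n r
  have h2 := gb_succ' hx n r
  have e1 : x ^ r * x ^ ((n : ℤ) + 1 - r) = x ^ (n + 1) := by
    rw [← zpow_add₀ hx, ← zpow_natCast]; congr 1; push_cast; ring
  linear_combination x ^ r * h2 - h1 + gb x n (r - 1) * e1

/-! ### The finite Rogers-Ramanujan identity -/

/-- `e_0 = e_1 = 1`, `e_{n+2} = e_{n+1} + x^(n+1) e_n` -/
noncomputable def e (x : ℂ) : ℕ → ℂ
  | 0 => 1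
  | 1 => 1
  | n + 2 => e x (n + 1) + x ^ (n + 1) * e x n

/-- the terms of Schur's sum -/
noncomputable def tm (x : ℂ) (n : ℕ) (j : ℤ) : ℂ :=
  (-1) ^ j * x ^ (j * (5 * j + 1) / 2) * gb x n (((n : ℤ) - 5 * j) / 2)

/-- the telescoping terms -/
noncomputable def tel (x : ℂ) (n : ℕ) (j : ℤ) : ℂ :=
  if ((n : ℤ) + 2 - 5 * j) % 2 = 0 then
    (-1) ^ j * x ^ (j * (5 * j + 1) / 2 + ((n : ℤ) + 2 - 5 * j) / 2) * gb x n (((n : ℤ) + 2 - 5 * j) / 2)
  else 0

lemma tri (j : ℤ) : 2 * (j * (5 * j + 1) / 2) = j * (5 * j + 1) := by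
  apply Int.mul_ediv_cancel'
  rcases Int.even_or_odd j with ⟨t, ht⟩ | ⟨t, ht⟩
  · exact ⟨t * (5 * j + 1), by rw [ht]; ring⟩
  · exact ⟨j * (5 * t + 3), by rw [ht]; ring⟩

lemma tm_rec {x : ℂ} (hx : x ≠ 0) (n : ℕ) (j : ℤ) :
    tm x (n + 2) j - tm x (n + 1) j - x ^ (n + 1) * tm x n j = tel x n j - tel x n (j + 1) := by
  have hN : ∀ s : ℤ, gb x (n + 2) s = gb x (n + 1) (s - 1) + x ^ s * gb x (n + 1) s :=
    fun s => gb_succ x (n + 1) s
  rcases Int.emod_two_eq_zero_or_one ((n : ℤ) + 2 - 5 * j) with h | h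
  · -- even case
    obtain ⟨r, hr⟩ : ∃ r, (n : ℤ) + 2 - 5 * j = 2 * r := ⟨((n : ℤ) + 2 - 5 * j) / 2, by omega⟩
    have q1 : (((n + 2 : ℕ) : ℤ) - 5 * j) / 2 = r := by push_cast; omega
    have q2 : (((n + 1 : ℕ) : ℤ) - 5 * j) / 2 = r - 1 := by push_cast; omega
    have q3 : ((n : ℤ) - 5 * j) / 2 = r - 1 := by omega
    have q4 : ((n : ℤ) + 2 - 5 * j) / 2 = r := by omega
    have t2 : tel x n (j + 1) = 0 := by
      unfold tel
      rw [if_neg (by omega)]
    have t1 : tel x n j = (-1) ^ j * x ^ (j * (5 * j + 1) / 2 + r) * gb x n r := by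
      unfold tel
      rw [if_pos h, q4]
    rw [t1, t2]
    unfold tm
    rw [q1, q2, q3]
    rw [hN r, gb_succ' hx n r]
    rw [zpow_add₀ hx]
    have e1 : x ^ r * x ^ ((n : ℤ) + 1 - r) = x ^ (n + 1) := by
      rw [← zpow_add₀ hx, ← zpow_natCast]; congr 1; push_cast; ring
    linear_combination (-1) ^ j * x ^ (j * (5 * j + 1) / 2) * gb x n (r - 1) * e1
  · -- odd case
    obtain ⟨r, hr⟩ : ∃ r, (n : ℤ) + 2 - 5 * j = 2 * r + 1 :=
      ⟨((n : ℤ) + 2 - 5 * j) / 2, by omega⟩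
    have q1 : (((n + 2 : ℕ) : ℤ) - 5 * j) / 2 = r := by push_cast; omega
    have q2 : (((n + 1 : ℕ) : ℤ) - 5 * j) / 2 = r := by push_cast; omega
    have q3 : ((n : ℤ) - 5 * j) / 2 = r - 1 := by omega
    have t1 : tel x n j = 0 := by
      unfold tel
      rw [if_neg (by omega)]
    have q5 : ((n : ℤ) + 2 - 5 * (j + 1)) / 2 = r - 2 := by omega
    have t2 : tel x n (j + 1) =
        (-1) ^ (j + 1) * x ^ ((j + 1) * (5 * (j + 1) + 1) / 2 + (r - 2)) * gb x n (r - 2) := by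
      unfold tel
      rw [if_pos (by omega), q5]
    rw [t1, t2]
    unfold tm
    rw [q1, q2, q3]
    have g1 := gb_succ' hx (n + 1) r
    have g2 : gb x (n + 1) (r - 1) = gb x n (r - 2) + x ^ (r - 1) * gb x n (r - 1) := by
      rw [gb_succ]; congr 2; ring
    have e1 : x ^ (((n + 1 : ℕ) : ℤ) + 1 - r) * x ^ (r - 1) = x ^ (n + 1) := by
      rw [← zpow_add₀ hx, ← zpow_natCast]; congr 1; push_cast; ring
    have e2 : x ^ ((j + 1) * (5 * (j + 1) + 1) / 2 + (r - 2)) =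
        x ^ (j * (5 * j + 1) / 2) * x ^ (((n + 1 : ℕ) : ℤ) + 1 - r) := by
      rw [← zpow_add₀ hx]
      congr 1
      have a1 := tri j
      have a2 := tri (j + 1)
      have a3 : (j + 1) * (5 * (j + 1) + 1) = j * (5 * j + 1) + 10 * j + 6 := by ring
      push_cast
      omega
    have e3 : (-1 : ℂ) ^ (j + 1) = - (-1) ^ j := by
      rw [zpow_add₀ (by norm_num), zpow_one]; ring
    rw [g1, g2, e2, e3]
    linear_combination (-1) ^ j * x ^ (j * (5 * j + 1) / 2) * gb x n (r - 1) * e1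

lemma tel_zero (x : ℂ) (n : ℕ) (j : ℤ) (h : (n : ℤ) + 2 < j ∨ j < -((n : ℤ) + 2)) :
    tel x n j = 0 := by
  unfold tel
  split_ifs
  · rcases h with h | h
    · rw [gb_neg x n _ (by omega)]; ring
    · rw [gb_gt x n _ (by omega)]; ring
  · rfl

lemma sum_tel (f : ℤ → ℂ) (a : ℤ) (n : ℕ) :
    ∑ i ∈ range n, (f (a + i) - f (a + i + 1)) = f a - f (a + n) := by
  induction n with
  | zero => simp
  | succ n ih =>
    rw [sum_range_succ, ih]
    push_cast
    rw [add_assoc a (n : ℤ) 1]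
    ring

/-- Schur's sum over a window -/
noncomputable def W (x : ℂ) (n K : ℕ) : ℂ := ∑ i ∈ range (2 * K + 1), tm x n (-(K : ℤ) + i)

lemma W_rec {x : ℂ} (hx : x ≠ 0) (n K : ℕ) (hK : n + 2 < K) :
    W x (n + 2) K = W x (n + 1) K + x ^ (n + 1) * W x n K := by
  have h : W x (n + 2) K - W x (n + 1) K - x ^ (n + 1) * W x n K = 0 := by
    unfold W
    rw [mul_sum, ← sum_sub_distrib, ← sum_sub_distrib]
    refine (sum_congr rfl (fun (i : ℕ) _ => tm_rec hx n (-(K : ℤ) + (i : ℤ)))).trans ?_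
    rw [sum_tel, tel_zero x n _ (by right; omega), tel_zero x n _ (by left; push_cast; omega)]
    ring
  linear_combination h

lemma W_eq {x : ℂ} (hx : x ≠ 0) (K : ℕ) :
    ∀ n : ℕ, n + 1 < K → W x n K = e x n ∧ W x (n + 1) K = e x (n + 1) := by
  have hsingle : ∀ n : ℕ, n ≤ 1 → W x n K = 1 := by
    intro n hn
    unfold W
    rw [sum_eq_single K]
    · have : (-(K : ℤ) + ((K : ℕ) : ℤ)) = 0 := by ring
      rw [this]
      unfold tm
      have h1 : ((n : ℤ) - 5 * 0) / 2 = 0 := by omega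
      rw [h1, gb_zero]
      simp
    · intro i hi hne
      rw [mem_range] at hi
      unfold tm
      rcases lt_or_gt_of_ne hne with h | h
      · rw [gb_gt x n _ (by omega)]; ring
      · rw [gb_neg x n _ (by omega)]; ring
    · intro h
      exact absurd (mem_range.2 (by omega)) h
  intro n
  induction n with
  | zero =>
    intro _
    exact ⟨hsingle 0 (by omega), hsingle 1 (by omega)⟩
  | succ n ih =>
    intro hn
    obtain ⟨h1, h2⟩ := ih (by omega)
    refine ⟨h2, ?_⟩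
    rw [W_rec hx n K (by omega), h1, h2]
    rfl

/-- **Schur's evaluation**: `e_m` at a primitive `m`-th root of unity, `m = 5 t`. -/
lemma e_prim {x : ℂ} {m t : ℕ} (hx : IsPrimitiveRoot x m) (hm : m = 5 * t) (ht : 0 < t) :
    e x m = (-1) ^ t * x ^ (((t : ℤ) * (5 * t - 1)) / 2) * (1 + x ^ t) := by
  have hm0 : m ≠ 0 := by omega
  have hx0 : x ≠ 0 := hx.ne_zero hm0
  have hgb : ∀ r : ℤ, 0 < r → r < m → gb x m r = 0 := by
    intro r h0 h1
    obtain ⟨n, rfl⟩ : ∃ n, m = n + 1 := ⟨m - 1, by omega⟩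
    have h2 := gb_mul hx0 n r
    rw [hx.pow_eq_one, sub_self, zero_mul] at h2
    rcases mul_eq_zero.1 h2 with h3 | h3
    · exfalso
      obtain ⟨r', rfl⟩ := Int.eq_ofNat_of_zero_le h0.le
      rw [zpow_natCast, sub_eq_zero] at h3
      exact hx.pow_ne_one_of_pos_of_lt (by omega) (by omega) h3
    · exact h3
  have hW := (W_eq hx0 (m + 2) m (by omega)).1
  rw [← hW]
  unfold W
  have hi1 : m + 2 + t ∈ range (2 * (m + 2) + 1) := by rw [mem_range]; omega
  have hi2 : m + 2 - t ∈ range (2 * (m + 2) + 1) := by rw [mem_range]; omega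
  rw [← add_sum_erase _ _ hi1, ← add_sum_erase _ _ (mem_erase.2 ⟨(by omega : m + 2 - t ≠ m + 2 + t), hi2⟩)]
  have c1 : (-((m + 2 : ℕ) : ℤ) + ((m + 2 + t : ℕ) : ℤ)) = t := by push_cast; ring
  have c2 : (-((m + 2 : ℕ) : ℤ) + ((m + 2 - t : ℕ) : ℤ)) = -t := by omega
  rw [c1, c2, sum_eq_zero, add_zero]
  · unfold tm
    have d1 : ((m : ℤ) - 5 * (t : ℤ)) / 2 = 0 := by omega
    have d2 : ((m : ℤ) - 5 * (-(t : ℤ))) / 2 = m := by omega
    rw [d1, d2, gb_zero, gb_self]
    have s1 : ((-1 : ℂ)) ^ (-(t : ℤ)) = (-1) ^ t := by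
      rw [zpow_neg, zpow_natCast, ← inv_pow]; norm_num
    have s2 : (-(t : ℤ) * (5 * -(t : ℤ) + 1) / 2) = ((t : ℤ) * (5 * t - 1)) / 2 := by
      congr 1; ring
    have s3 : ((t : ℤ) * (5 * (t : ℤ) + 1) / 2) = ((t : ℤ) * (5 * t - 1)) / 2 + t := by
      have : (t : ℤ) * (5 * (t : ℤ) + 1) = (t : ℤ) * (5 * t - 1) + 2 * t := by ring
      omega
    rw [s1, s2, s3, zpow_natCast, zpow_add₀ hx0, zpow_natCast]
    ring
  · intro i hi
    rw [mem_erase, mem_erase, mem_range] at hi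
    obtain ⟨h1, h2, h3⟩ := hi
    unfold tm
    rcases lt_trichotomy (((m : ℤ) - 5 * (-((m + 2 : ℕ) : ℤ) + i)) / 2) 0 with h | h | h
    · rw [gb_neg _ _ _ h]; ring
    · exfalso
      omega
    · rcases lt_trichotomy (((m : ℤ) - 5 * (-((m + 2 : ℕ) : ℤ) + i)) / 2) m with h' | h' | h'
      · rw [hgb _ h h']; ring
      · exfalso
        omega
      · rw [gb_gt _ _ _ h']; ring

/-- the golden ratio equation -/
lemma e_golden {x : ℂ} {m t : ℕ} (hx : IsPrimitiveRoot x m) (hm : m = 5 * t) (ht : 0 < t) :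
    e x m ^ 2 = e x m + 1 := by
  have hm0 : m ≠ 0 := by omega
  have hx0 : x ≠ 0 := hx.ne_zero hm0
  have hw : IsPrimitiveRoot (x ^ t) 5 := hx.pow (by omega) (by rw [hm]; ring)
  set w := x ^ t with hwdef
  have hw5 : w ^ 5 = 1 := hw.pow_eq_one
  have hw1 : w ≠ 1 := hw.ne_one (by norm_num)
  have hsum : 1 + w + w ^ 2 + w ^ 3 + w ^ 4 = 0 := by
    have h : (w - 1) * (1 + w + w ^ 2 + w ^ 3 + w ^ 4) = 0 := by ring_nf; rw [hw5]; ring
    rcases mul_eq_zero.1 h with h | h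
    · exact absurd (sub_eq_zero.1 h) hw1
    · exact h
  set y : ℂ := (-1) ^ t * x ^ (((t : ℤ) * (5 * t - 1)) / 2) with hy
  have he : e x m = y * (1 + w) := e_prim hx hm ht
  have htri : 2 * (((t : ℤ) * (5 * t - 1)) / 2) = (t : ℤ) * (5 * t - 1) := by
    apply Int.mul_ediv_cancel'
    rcases Int.even_or_odd (t : ℤ) with ⟨u, hu⟩ | ⟨u, hu⟩
    · exact ⟨u * (5 * t - 1), by rw [hu]; ring⟩
    · exact ⟨t * (5 * u + 2), by rw [hu]; ring⟩
  have hy2 : y ^ 2 * w = 1 := by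
    rw [hy, mul_pow, ← pow_mul, mul_comm t 2, pow_mul]
    have h1 : ((-1 : ℂ) ^ 2) ^ t = 1 := by norm_num
    rw [h1, one_mul, ← zpow_natCast (x ^ _) 2, ← zpow_mul, hwdef, ← zpow_natCast x t,
      ← zpow_add₀ hx0]
    have h2 : ((t : ℤ) * (5 * t - 1)) / 2 * ((2 : ℕ) : ℤ) + t = (m : ℤ) * t := by
      rw [mul_comm (((t : ℤ) * (5 * t - 1)) / 2)]
      push_cast
      rw [htri, hm]
      push_cast
      ring
    rw [h2, zpow_mul, zpow_natCast x m, hx.pow_eq_one, one_zpow]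
  have hy5 : y ^ 5 = -1 := by
    have h3 : y ^ 5 = (-1) ^ t * x ^ ((m : ℤ) * (m - 1) / 2) := by
      rw [hy, mul_pow, ← pow_mul, ← zpow_natCast (x ^ _) 5, ← zpow_mul]
      congr 1
      · rw [mul_comm t 5, pow_mul]; norm_num
      · congr 1
        have h4 : (m : ℤ) * (m - 1) = 5 * ((t : ℤ) * (5 * t - 1)) := by
          rw [hm]; push_cast; ring
        rw [h4]
        push_cast
        omega
    rw [h3]
    rcases Nat.even_or_odd t with ⟨u, hu⟩ | ⟨u, hu⟩
    · have h5 : (m : ℤ) * (m - 1) / 2 = ((5 * u : ℕ) : ℤ) * (m - 1) := by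
        have : (m : ℤ) * (m - 1) = 2 * (((5 * u : ℕ) : ℤ) * (m - 1)) := by
          rw [hm, hu]; push_cast; ring
        rw [this]
        exact Int.mul_ediv_cancel_left _ (by norm_num)
      have h6 : x ^ (5 * u) = -1 := by
        have h7 : (x ^ (5 * u)) ^ 2 = 1 := by
          rw [← pow_mul, show 5 * u * 2 = m by omega, hx.pow_eq_one]
        have h8 : (x ^ (5 * u) - 1) * (x ^ (5 * u) + 1) = 0 := by linear_combination h7
        rcases mul_eq_zero.1 h8 with h9 | h9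
        · exact absurd (sub_eq_zero.1 h9) (hx.pow_ne_one_of_pos_of_lt (by omega) (by omega))
        · linear_combination h9
      rw [h5, zpow_mul, zpow_natCast, h6]
      have h9 : ((-1 : ℂ)) ^ ((m : ℤ) - 1) = -1 := by
        apply Odd.neg_one_zpow
        exact ⟨5 * (u : ℤ) - 1, by rw [hm, hu]; push_cast; ring⟩
      rw [h9, hu, ← two_mul, pow_mul]
      norm_num
    · have h5 : (m : ℤ) * (m - 1) / 2 = (m : ℤ) * (5 * (u : ℤ) + 2) := by
        have : (m : ℤ) * (m - 1) = 2 * ((m : ℤ) * (5 * (u : ℤ) + 2)) := by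
          rw [hm, hu]; push_cast; ring
        rw [this]
        exact Int.mul_ediv_cancel_left _ (by norm_num)
      rw [h5, zpow_mul, zpow_natCast, hx.pow_eq_one, one_zpow, hu, pow_succ, pow_mul]
      norm_num
  have hyw : y = - w ^ 2 := by
    -- `y ^ 2 = w ^ 4`
    have h1 : y ^ 2 = w ^ 4 := by
      have : y ^ 2 * w * w ^ 4 = w ^ 4 := by rw [hy2, one_mul]
      calc y ^ 2 = y ^ 2 * w ^ 5 := by rw [hw5, mul_one]
        _ = y ^ 2 * w * w ^ 4 := by ring
        _ = w ^ 4 := this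
    have h2 : (y - w ^ 2) * (y + w ^ 2) = 0 := by linear_combination h1
    rcases mul_eq_zero.1 h2 with h3 | h3
    · exfalso
      have h4 : y = w ^ 2 := sub_eq_zero.1 h3
      rw [h4] at hy5
      have h5 : (w ^ 2) ^ 5 = 1 := by rw [← pow_mul, mul_comm, pow_mul, hw5, one_pow]
      rw [h5] at hy5
      norm_num at hy5
    · linear_combination h3
  rw [he, hyw]
  linear_combination (w + 2) * hw5 + hsum

/-! ### Products of the matrices -/

/-- the matrix `B(N)` with a factor `a` -/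
noncomputable def B (a x : ℂ) (N : ℕ) : Matrix (Fin 2) (Fin 2) ℂ := !![1, 1; a * x ^ N, 0]

/-- `B(s) B(s+1) ⋯ B(s+n-1)` -/
noncomputable def Pr (a x : ℂ) (s : ℕ) : ℕ → Matrix (Fin 2) (Fin 2) ℂ
  | 0 => 1
  | n + 1 => Pr a x s n * B a x (s + n)

lemma Pr_succ (a x : ℂ) (s n : ℕ) : Pr a x s (n + 1) = Pr a x s n * B a x (s + n) := rfl

lemma Pr_succ' (a x : ℂ) (s n : ℕ) : Pr a x s (n + 1) = B a x s * Pr a x (s + 1) n := by
  induction n with
  | zero => rw [Pr_succ]; simp [Pr]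
  | succ n ih =>
    rw [Pr_succ, ih, Pr_succ, mul_assoc]
    congr 3
    ring

lemma B_add {x : ℂ} {m : ℕ} (hx : x ^ m = 1) (a : ℂ) (N : ℕ) : B a x (N + m) = B a x N := by
  unfold B
  rw [pow_add, hx, mul_one]

lemma Pr_congr {x : ℂ} {m : ℕ} (hx : x ^ m = 1) (a : ℂ) (t n : ℕ) :
    Pr a x (m * t) n = Pr a x 0 n := by
  induction n with
  | zero => rfl
  | succ n ih =>
    rw [Pr_succ, Pr_succ, ih]
    congr 1
    unfold B
    rw [pow_add, pow_add, pow_mul, hx, one_pow, pow_zero]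

lemma Pr_shift (a x : ℂ) (s n : ℕ) : Pr (a * x) x s n = Pr a x (s + 1) n := by
  induction n with
  | zero => rfl
  | succ n ih =>
    rw [Pr_succ, Pr_succ, ih]
    congr 1
    unfold B
    rw [show s + 1 + n = (s + n) + 1 by ring, pow_succ]
    congr 3
    ring_nf

lemma trace_cyc {x : ℂ} {m : ℕ} (hx : x ^ m = 1) (hm : 0 < m) (a : ℂ) (s : ℕ) :
    (Pr a x (s + 1) m).trace = (Pr a x s m).trace := by
  obtain ⟨n, rfl⟩ : ∃ n, m = n + 1 := ⟨m - 1, by omega⟩
  rw [Pr_succ, Pr_succ' a x s n, Matrix.trace_mul_comm]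
  congr 2
  rw [show s + 1 + n = s + (n + 1) by ring, B_add hx]

open Polynomial in
/-- the entries of the first row, as polynomials in `a` -/
noncomputable def uu (x : ℂ) : ℕ → ℂ[X]
  | 0 => 0
  | 1 => 1
  | n + 2 => uu x (n + 1) + C (x ^ n) * X * uu x n

open Polynomial in
/-- the entries of the second row, as polynomials in `a` -/
noncomputable def vv (x : ℂ) : ℕ → ℂ[X]
  | 0 => 1
  | 1 => 0
  | n + 2 => vv x (n + 1) + C (x ^ n) * X * vv x n

lemma Pr_eq (a x : ℂ) (n : ℕ) :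
    Pr a x 0 n = !![(uu x (n + 1)).eval a, (uu x n).eval a; (vv x (n + 1)).eval a, (vv x n).eval a] := by
  induction n with
  | zero =>
    unfold Pr uu vv
    ext i j
    fin_cases i <;> fin_cases j <;> simp
  | succ n ih =>
    rw [Pr_succ, ih]
    unfold B
    rw [show uu x (n + 1 + 1) = uu x (n + 1) + Polynomial.C (x ^ n) * Polynomial.X * uu x n from rfl,
      show vv x (n + 1 + 1) = vv x (n + 1) + Polynomial.C (x ^ n) * Polynomial.X * vv x n from rfl]
    ext i j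
    fin_cases i <;> fin_cases j <;>
      simp [Matrix.mul_apply, Fin.sum_univ_two] <;> ring

lemma deg_aux (x : ℂ) (f : ℕ → Polynomial ℂ)
    (hf : ∀ n, f (n + 2) = f (n + 1) + Polynomial.C (x ^ n) * Polynomial.X * f n)
    (h0 : (f 0).natDegree ≤ 0) (h1 : (f 1).natDegree ≤ 0) :
    ∀ n, (f n).natDegree ≤ n / 2 ∧ (f (n + 1)).natDegree ≤ (n + 1) / 2 := by
  intro n
  induction n with
  | zero => exact ⟨h0, h1⟩
  | succ n ih =>
    refine ⟨ih.2, ?_⟩
    rw [hf n]
    refine (Polynomial.natDegree_add_le _ _).trans (max_le (ih.2.trans (by omega)) ?_)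
    refine Polynomial.natDegree_mul_le.trans ?_
    have h3 : (Polynomial.C (x ^ n) * (Polynomial.X : Polynomial ℂ)).natDegree ≤ 1 :=
      (Polynomial.natDegree_C_mul_le _ _).trans Polynomial.natDegree_X_le
    have h4 := ih.1
    omega

/-- the trace is `1` -/
lemma trace_one {x : ℂ} {m : ℕ} (hx : IsPrimitiveRoot x m) (hm : 2 ≤ m) (a : ℂ) :
    (Pr a x 0 m).trace = 1 := by
  set Tp : Polynomial ℂ := uu x (m + 1) + vv x m with hTp
  have htr : ∀ b : ℂ, (Pr b x 0 m).trace = Tp.eval b := by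
    intro b
    rw [Pr_eq, Matrix.trace_fin_two_of, hTp, Polynomial.eval_add]
  have hinv : ∀ b : ℂ, Tp.eval (b * x) = Tp.eval b := by
    intro b
    rw [← htr, ← htr, Pr_shift, trace_cyc hx.pow_eq_one (by omega)]
  have hpoly : Tp.comp (Polynomial.C x * Polynomial.X) = Tp := by
    apply Polynomial.funext
    intro b
    rw [Polynomial.eval_comp, Polynomial.eval_mul, Polynomial.eval_C, Polynomial.eval_X, mul_comm,
      hinv]
  have hdeg : Tp.natDegree < m := by
    have d1 := (deg_aux x (uu x) (fun _ => rfl) (by simp [uu]) (by simp [uu]) (m + 1)).1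
    have d2 := (deg_aux x (vv x) (fun _ => rfl) (by simp [vv]) (by simp [vv]) m).1
    have d3 := Polynomial.natDegree_add_le (uu x (m + 1)) (vv x m)
    rw [← hTp] at d3
    have : max (uu x (m + 1)).natDegree (vv x m).natDegree ≤ (m + 1) / 2 :=
      max_le d1 (d2.trans (by omega))
    omega
  have hcoef : ∀ k, 0 < k → Tp.coeff k = 0 := by
    intro k hk
    rcases lt_or_ge k m with hkm | hkm
    · have h1 : (Tp.comp (Polynomial.C x * Polynomial.X)).coeff k = Tp.coeff k * x ^ k :=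
        Polynomial.comp_C_mul_X_coeff
      rw [hpoly] at h1
      have h2 : Tp.coeff k * (x ^ k - 1) = 0 := by linear_combination -h1
      rcases mul_eq_zero.1 h2 with h3 | h3
      · exact h3
      · exact absurd (sub_eq_zero.1 h3) (hx.pow_ne_one_of_pos_of_lt hk.ne' hkm)
    · exact Polynomial.coeff_eq_zero_of_natDegree_lt (by omega)
  have hconst : Tp = Polynomial.C (Tp.coeff 0) := by
    ext k
    rcases Nat.eq_zero_or_pos k with rfl | hk
    · simp
    · rw [hcoef k hk, Polynomial.coeff_C, if_neg hk.ne']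
  have hu0 : ∀ n, (uu x (n + 1)).eval 0 = 1 ∧ (uu x (n + 2)).eval 0 = 1 := by
    intro n
    induction n with
    | zero => exact ⟨by simp [uu], by simp [uu]⟩
    | succ n ih =>
      refine ⟨ih.2, ?_⟩
      rw [show uu x (n + 1 + 2) = uu x (n + 2) + Polynomial.C (x ^ (n + 1)) * Polynomial.X * uu x (n + 1)
        from rfl]
      simp [ih.2]
  have hv0 : ∀ n, (vv x (n + 1)).eval 0 = 0 ∧ (vv x (n + 2)).eval 0 = 0 := by
    intro n
    induction n with
    | zero => exact ⟨by simp [vv], by simp [vv]⟩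
    | succ n ih =>
      refine ⟨ih.2, ?_⟩
      rw [show vv x (n + 1 + 2) = vv x (n + 2) + Polynomial.C (x ^ (n + 1)) * Polynomial.X * vv x (n + 1)
        from rfl]
      simp [ih.2]
  have h00 : Tp.eval 0 = 1 := by
    obtain ⟨n, rfl⟩ : ∃ n, m = n + 1 := ⟨m - 1, by omega⟩
    rw [hTp, Polynomial.eval_add, (hu0 (n + 1)).1, (hv0 n).1, add_zero]
  rw [htr, hconst, Polynomial.eval_C]
  rw [hconst, Polynomial.eval_C] at h00
  exact h00

lemma B_det (a x : ℂ) (N : ℕ) : (B a x N).det = -(a * x ^ N) := by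
  unfold B
  rw [Matrix.det_fin_two_of]
  ring

lemma Pr_det (x : ℂ) (n : ℕ) : (Pr 1 x 0 n).det = (-1) ^ n * x ^ (∑ i ∈ range n, i) := by
  induction n with
  | zero => simp [Pr]
  | succ n ih =>
    rw [Pr_succ, Matrix.det_mul, ih, B_det, sum_range_succ, zero_add]
    ring

lemma det_neg_one {x : ℂ} {m : ℕ} (hx : IsPrimitiveRoot x m) (hm : 0 < m) :
    (Pr 1 x 0 m).det = -1 := by
  rw [Pr_det]
  have hs := Finset.sum_range_id_mul_two m
  rcases Nat.even_or_odd m with ⟨u, hu⟩ | ⟨u, hu⟩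
  · have h1 : ∑ i ∈ range m, i = u * (m - 1) := by
      have : (∑ i ∈ range m, i) * 2 = (u * (m - 1)) * 2 := by
        rw [hs]
        calc m * (m - 1) = (u + u) * (m - 1) := by rw [← hu]
          _ = u * (m - 1) * 2 := by ring
      omega
    have h6 : x ^ u = -1 := by
      have h7 : (x ^ u) ^ 2 = 1 := by
        rw [← pow_mul, show u * 2 = m by omega, hx.pow_eq_one]
      have h8 : (x ^ u - 1) * (x ^ u + 1) = 0 := by linear_combination h7
      rcases mul_eq_zero.1 h8 with h9 | h9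
      · exact absurd (sub_eq_zero.1 h9) (hx.pow_ne_one_of_pos_of_lt (by omega) (by omega))
      · linear_combination h9
    rw [h1, pow_mul, h6, ← pow_add]
    apply Odd.neg_one_pow
    exact ⟨m - 1, by omega⟩
  · have h1 : ∑ i ∈ range m, i = m * u := by
      have h2 : m - 1 = 2 * u := by omega
      rw [h2] at hs
      have : (∑ i ∈ range m, i) * 2 = (m * u) * 2 := by rw [hs]; ring
      omega
    rw [h1, pow_mul, hx.pow_eq_one, one_pow, mul_one, hu, pow_succ, pow_mul]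
    norm_num

lemma uu_e (x : ℂ) : ∀ n, (uu x (n + 1)).eval 1 = e x n ∧ (uu x (n + 2)).eval 1 = e x (n + 1) := by
  intro n
  induction n with
  | zero => exact ⟨by simp [uu, e], by simp [uu, e]⟩
  | succ n ih =>
    refine ⟨ih.2, ?_⟩
    rw [show uu x (n + 1 + 2) = uu x (n + 2) + Polynomial.C (x ^ (n + 1)) * Polynomial.X * uu x (n + 1)
      from rfl, show e x (n + 1 + 1) = e x (n + 1) + x ^ (n + 1) * e x n from rfl]
    simp [ih.1, ih.2]

/-- the first column of the product, computed from the right -/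
lemma suffix {x : ℂ} {m : ℕ} (hx : x ^ m = 1) :
    ∀ k : ℕ, k + 1 ≤ m → (Pr 1 x 0 m).mulVec ![1, 0] =
      (Pr 1 x 0 (m - (k + 1))).mulVec ![e x⁻¹ (k + 1), x⁻¹ ^ (k + 1) * e x⁻¹ k] := by
  have hpow : ∀ j i : ℕ, j + i = m → x ^ j = x⁻¹ ^ i := by
    intro j i h
    rw [inv_pow, eq_comm, inv_eq_iff_eq_inv, eq_comm]
    rw [eq_comm]
    apply eq_inv_of_mul_eq_one_left
    rw [← pow_add, add_comm, h, hx]
  intro k
  induction k with
  | zero =>
    intro hk
    obtain ⟨n, rfl⟩ : ∃ n, m = n + 1 := ⟨m - 1, by omega⟩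
    rw [Pr_succ, ← Matrix.mulVec_mulVec]
    have h1 : n + 1 - (0 + 1) = n := by omega
    rw [h1]
    congr 1
    unfold B e
    have h2 : x ^ (0 + n) = x⁻¹ ^ (0 + 1) := hpow _ _ (by omega)
    rw [h2]
    ext i
    fin_cases i <;> simp
  | succ k ih =>
    intro hk
    rw [ih (by omega)]
    obtain ⟨n, hn⟩ : ∃ n, m = n + (k + 1 + 1) := ⟨m - (k + 1 + 1), by omega⟩
    have h1 : m - (k + 1) = n + 1 := by omega
    have h2 : m - (k + 1 + 1) = n := by omega
    rw [h1, h2, Pr_succ, ← Matrix.mulVec_mulVec]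
    congr 1
    have h3 : x ^ (0 + n) = x⁻¹ ^ (k + 1 + 1) := hpow _ _ (by omega)
    unfold B
    rw [h3, show e x⁻¹ (k + 1 + 1) = e x⁻¹ (k + 1) + x⁻¹ ^ (k + 1) * e x⁻¹ k from rfl]
    ext i
    fin_cases i
    · simp
    · simp [mul_comm]

lemma e_conj (x : ℂ) : ∀ n, e ((starRingEnd ℂ) x) n = (starRingEnd ℂ) (e x n) ∧
    e ((starRingEnd ℂ) x) (n + 1) = (starRingEnd ℂ) (e x (n + 1)) := by
  intro n
  induction n with
  | zero => exact ⟨by simp [e], by simp [e]⟩
  | succ n ih =>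
    refine ⟨ih.2, ?_⟩
    rw [show e ((starRingEnd ℂ) x) (n + 1 + 1) = e ((starRingEnd ℂ) x) (n + 1) +
      ((starRingEnd ℂ) x) ^ (n + 1) * e ((starRingEnd ℂ) x) n from rfl,
      show e x (n + 1 + 1) = e x (n + 1) + x ^ (n + 1) * e x n from rfl, ih.1, ih.2]
    simp

/-- the product over a full period starting at `0` is diagonal -/
lemma diag {x : ℂ} {m t : ℕ} (hx : IsPrimitiveRoot x m) (hm : m = 5 * t) (ht : 0 < t) :
    Pr 1 x 0 m = !![e x m, 0; 0, 1 - e x m] := by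
  have hm0 : m ≠ 0 := by omega
  have hx0 : x ≠ 0 := hx.ne_zero hm0
  obtain ⟨n, hn⟩ : ∃ n, m = n + 1 := ⟨m - 1, by omega⟩
  have hP := Pr_eq 1 x m
  rw [(uu_e x m).1] at hP
  have hu : (uu x m).eval 1 = e x n := by rw [hn]; exact (uu_e x n).1
  rw [hu] at hP
  have htr := trace_one hx (by omega) 1
  rw [hP, Matrix.trace_fin_two_of] at htr
  have hdet := det_neg_one hx (by omega)
  rw [hP, Matrix.det_fin_two_of] at hdet
  have hinv : x⁻¹ = (starRingEnd ℂ) x := by
    have h1 : ‖x‖ = 1 := hx.norm'_eq_one hm0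
    rw [Complex.inv_def, Complex.normSq_eq_norm_sq, h1]
    simp
  have hv : (vv x (m + 1)).eval 1 = (starRingEnd ℂ) (e x n) := by
    have h1 := suffix hx.pow_eq_one n (by omega)
    rw [← hn, Nat.sub_self] at h1
    have h2 := congrFun h1 1
    rw [hP] at h2
    rw [← (e_conj x n).1, ← hinv]
    have h3 : x⁻¹ ^ m = 1 := by rw [inv_pow, hx.pow_eq_one, inv_one]
    simpa [Pr, h3] using h2
  have hprod : e x n * (starRingEnd ℂ) (e x n) = 0 := by
    have hg := e_golden hx hm ht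
    rw [hv] at hdet
    have h1 : (vv x m).eval 1 = 1 - e x m := by linear_combination htr
    rw [h1] at hdet
    linear_combination -hdet - hg
  have hz : e x n = 0 := by
    rcases mul_eq_zero.1 hprod with h | h
    · exact h
    · exact (map_eq_zero _).1 h
  rw [hP, hv, hz]
  have h1 : (vv x m).eval 1 = 1 - e x m := by linear_combination htr
  rw [h1]
  simp

/-! ### The sequences `P` and `Q` -/

/-- the matrix of two consecutive columns `(P_n, Q_n)`, `(P_{n-1}, Q_{n-1})` -/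
noncomputable def M (a x : ℂ) (n : ℕ) : Matrix (Fin 2) (Fin 2) ℂ :=
  !![R a x 1 (n + 1), R a x 1 n; R a x (1 + a) (n + 1), R a x (1 + a) n]

lemma R_rec (a x r₀ : ℂ) (n : ℕ) : R a x r₀ (n + 2) = R a x r₀ (n + 1) + a * x ^ (n + 1) * R a x r₀ n :=
  rfl

lemma M_succ (a x : ℂ) (n : ℕ) : M a x (n + 1) = M a x n * B a x (n + 1) := by
  unfold M B
  rw [show n + 1 + 1 = n + 2 from rfl, R_rec, R_rec]
  ext i j
  fin_cases i <;> fin_cases j <;> simp [Matrix.mul_apply, Fin.sum_univ_two] <;> ring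

lemma M_add (a x : ℂ) (n k : ℕ) : M a x (n + k) = M a x n * Pr a x (n + 1) k := by
  induction k with
  | zero => simp [Pr]
  | succ k ih =>
    rw [← add_assoc, M_succ, ih, Pr_succ, mul_assoc, show n + 1 + k = n + k + 1 by ring]

lemma A_M {x : ℂ} {m : ℕ} (a : ℂ) (hx : x ^ m = 1) (hm : 3 ≤ m) (n : ℕ) :
    A a x m * M a x n = M a x (n + m) := by
  induction n with
  | zero =>
    obtain ⟨k, rfl⟩ : ∃ k, m = k + 3 := ⟨m - 3, by omega⟩
    have h1 : k + 3 - 1 = k + 2 := rfl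
    have h2 : k + 3 - 2 = k + 1 := rfl
    have h3 : k + 3 - 3 = k := rfl
    unfold A M P Q
    rw [h1, h2, h3, zero_add (k + 3)]
    have e1 : ∀ r₀ : ℂ, R a x r₀ (k + 3) = R a x r₀ (k + 1 + 1) + a * x ^ (k + 2) * R a x r₀ (k + 1) :=
      fun r₀ => R_rec a x r₀ (k + 1)
    have e2 : ∀ r₀ : ℂ, R a x r₀ (k + 3 + 1) = R a x r₀ (k + 3) + a * R a x r₀ (k + 1 + 1) := by
      intro r₀
      rw [show k + 3 + 1 = (k + 2) + 2 from rfl, R_rec, show k + 2 + 1 = k + 3 from rfl, hx]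
      ring_nf
    rw [e2, e2, e1, e1]
    have r0 : ∀ r₀ : ℂ, R a x r₀ 0 = 1 := fun _ => rfl
    have r1 : ∀ r₀ : ℂ, R a x r₀ (0 + 1) = r₀ := fun _ => rfl
    rw [r1, r1, r0, r0]
    ext i j
    fin_cases i <;> fin_cases j <;> simp [Matrix.mul_apply, Fin.sum_univ_two] <;> ring
  | succ n ih =>
    rw [M_succ, ← mul_assoc, ih, show n + 1 + m = (n + m) + 1 by ring, M_succ,
      show n + m + 1 = (n + 1) + m by ring, B_add hx]

lemma B_scale (x : ℂ) (c N : ℕ) : B (x ^ c) x N = B 1 x (c + N) := by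
  unfold B
  rw [pow_add, one_mul]

lemma Pr_scale (x : ℂ) (c s n : ℕ) : Pr (x ^ c) x s n = Pr 1 x (c + s) n := by
  induction n with
  | zero => rfl
  | succ n ih => rw [Pr_succ, Pr_succ, ih, B_scale, add_assoc]

lemma Pr_det_ne {x : ℂ} (hx : x ≠ 0) (s n : ℕ) : (Pr 1 x s n).det ≠ 0 := by
  induction n with
  | zero => simp [Pr]
  | succ n ih =>
    rw [Pr_succ, Matrix.det_mul, B_det]
    exact mul_ne_zero ih (neg_ne_zero.2 (mul_ne_zero one_ne_zero (pow_ne_zero _ hx)))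

lemma mulVec_e1 (Z : Matrix (Fin 2) (Fin 2) ℂ) : Z.mulVec ![1, 0] = ![Z 0 0, Z 1 0] := by
  ext i
  fin_cases i <;> simp [Matrix.mulVec, dotProduct, Fin.sum_univ_two]

/-- the eigenvector statement with `a = x ^ c` -/
lemma main {x : ℂ} {m t : ℕ} (hx : IsPrimitiveRoot x m) (hm : m = 5 * t) (ht : 0 < t) (c r : ℕ)
    (hr : m ∣ c + r + 1 ∨ m ∣ c + r + 2) :
    ∃ lam : ℂ, lam ^ 2 = lam + 1 ∧
      (A (x ^ c) x m).mulVec ![P (x ^ c) x r, Q (x ^ c) x r] =
        lam • ![P (x ^ c) x r, Q (x ^ c) x r] ∧ ![P (x ^ c) x r, Q (x ^ c) x r] ≠ 0 := by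
  have hm0 : m ≠ 0 := by omega
  have hx0 : x ≠ 0 := hx.ne_zero hm0
  have hg := e_golden hx hm ht
  have hd := diag hx hm ht
  have hcol : (M (x ^ c) x r).mulVec ![1, 0] = ![P (x ^ c) x r, Q (x ^ c) x r] := by
    rw [mulVec_e1]
    rfl
  have hne : ![P (x ^ c) x r, Q (x ^ c) x r] ≠ 0 := by
    intro h0
    have hdet : (M (x ^ c) x r).det ≠ 0 := by
      have h1 := M_add (x ^ c) x 0 r
      rw [zero_add] at h1
      rw [h1, Matrix.det_mul, Pr_scale]
      refine mul_ne_zero ?_ (Pr_det_ne hx0 _ _)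
      have h2 : (M (x ^ c) x 0).det = -(x ^ c) := by
        unfold M
        rw [Matrix.det_fin_two_of]
        have r0 : ∀ r₀ : ℂ, R (x ^ c) x r₀ 0 = 1 := fun _ => rfl
        have r1 : ∀ r₀ : ℂ, R (x ^ c) x r₀ (0 + 1) = r₀ := fun _ => rfl
        rw [r0, r0, r1, r1]
        ring
      rw [h2]
      exact neg_ne_zero.2 (pow_ne_zero _ hx0)
    apply hdet
    rw [Matrix.det_fin_two]
    have h3 := congrFun h0 0
    have h4 := congrFun h0 1
    have h5 : M (x ^ c) x r 0 0 = 0 := h3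
    have h6 : M (x ^ c) x r 1 0 = 0 := h4
    rw [h5, h6]
    ring
  have hstep : ∀ lam : ℂ, (Pr 1 x (c + (r + 1)) m).mulVec ![1, 0] = lam • ![1, 0] →
      (A (x ^ c) x m).mulVec ![P (x ^ c) x r, Q (x ^ c) x r] =
        lam • ![P (x ^ c) x r, Q (x ^ c) x r] := by
    intro lam hlam
    rw [← hcol, Matrix.mulVec_mulVec, A_M _ hx.pow_eq_one (by omega), M_add, Pr_scale,
      ← Matrix.mulVec_mulVec, hlam, Matrix.mulVec_smul]
  rcases hr with ⟨s, hs⟩ | ⟨s, hs⟩
  · refine ⟨e x m, hg, hstep _ ?_, hne⟩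
    rw [show c + (r + 1) = m * s by omega, Pr_congr hx.pow_eq_one, hd, mulVec_e1]
    ext i
    fin_cases i <;> simp
  · refine ⟨1 - e x m, by linear_combination hg, hstep _ ?_, hne⟩
    set q := c + (r + 1) with hq
    have h1 : Pr 1 x q m * B 1 x q = B 1 x q * Pr 1 x 0 m := by
      have h2 : Pr 1 x q (m + 1) = Pr 1 x q m * B 1 x q := by rw [Pr_succ, B_add hx.pow_eq_one]
      rw [← h2, Pr_succ', show q + 1 = m * s by omega, Pr_congr hx.pow_eq_one]
    have h3 : (B 1 x q).mulVec ![0, 1] = ![1, 0] := by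
      unfold B
      ext i
      fin_cases i <;> simp
    calc (Pr 1 x q m).mulVec ![1, 0] = (Pr 1 x q m * B 1 x q).mulVec ![0, 1] := by
          rw [← Matrix.mulVec_mulVec, h3]
      _ = (B 1 x q).mulVec ((Pr 1 x 0 m).mulVec ![0, 1]) := by rw [h1, Matrix.mulVec_mulVec]
      _ = (B 1 x q).mulVec ((1 - e x m) • ![0, 1]) := by
          congr 1
          rw [hd]
          ext i
          fin_cases i <;> simp
      _ = (1 - e x m) • ![1, 0] := by rw [Matrix.mulVec_smul, h3]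

/-- **Eigenvector approximants.** For all `k ≥ 1`, `m ≥ 3`, `j`, `l` with `gcd(j,k) = gcd(l,m) = 1`,
`5 ∣ m`, `k ∣ m`, with `a = e^(2 π i j / k)`, `x = e^(2 π i l / m)`, for all `l*` with
`l l* ≡ 1 (mod m)`, all `s₀ ≡ - (m / k) j l* (mod m)` and all `r ≥ 0` with `r ≡ s₀ - 1` or
`r ≡ s₀ - 2 (mod m)`, the vector `(P_r, Q_r)` is an eigenvector of the matrix `A` with the eigenvalue
`(1 + √5) / 2` or `(1 - √5) / 2`. -/
theorem result (k m : ℕ) (j l l' s₀ : ℤ) (hk : 1 ≤ k) (hm3 : 3 ≤ m)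
    (_hjk : IsCoprime j (k : ℤ)) (hlm : IsCoprime l (m : ℤ)) (h5 : 5 ∣ m) (hkm : k ∣ m)
    (hl' : l * l' ≡ 1 [ZMOD m]) (hs₀ : s₀ ≡ -(((m / k : ℕ) : ℤ) * j * l') [ZMOD m])
    (r : ℕ) (hr : (r : ℤ) ≡ s₀ - 1 [ZMOD m] ∨ (r : ℤ) ≡ s₀ - 2 [ZMOD m]) :
    ∃ lam : ℂ, (lam = (1 + (√5 : ℝ)) / 2 ∨ lam = (1 - (√5 : ℝ)) / 2) ∧
      Module.End.HasEigenvector
        (Matrix.toLin' (A (Complex.exp (2 * Real.pi * Complex.I * j / k))
          (Complex.exp (2 * Real.pi * Complex.I * l / m)) m)) lam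
        ![P (Complex.exp (2 * Real.pi * Complex.I * j / k))
            (Complex.exp (2 * Real.pi * Complex.I * l / m)) r,
          Q (Complex.exp (2 * Real.pi * Complex.I * j / k))
            (Complex.exp (2 * Real.pi * Complex.I * l / m)) r] := by
  obtain ⟨t, ht⟩ := h5
  obtain ⟨w, hw⟩ := hkm
  have hk0 : k ≠ 0 := by omega
  have hm0 : m ≠ 0 := by omega
  have hmk : m / k = w := by rw [hw]; exact Nat.mul_div_cancel_left _ (by omega)
  rw [hmk] at hs₀
  set x := Complex.exp (2 * Real.pi * Complex.I * l / m) with hxdef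
  have hx : IsPrimitiveRoot x m := by
    have h1 := (Complex.isPrimitiveRoot_exp m hm0).zpow_of_gcd_eq_one l
      (Int.isCoprime_iff_gcd_eq_one.1 hlm)
    rw [← Complex.exp_int_mul] at h1
    have h2 : (l : ℂ) * (2 * Real.pi * Complex.I / m) = 2 * Real.pi * Complex.I * l / m := by ring
    rwa [h2] at h1
  have hmz : (0 : ℤ) < m := by omega
  obtain ⟨c, hc⟩ := Int.eq_ofNat_of_zero_le (Int.emod_nonneg ((w : ℤ) * j * l') hmz.ne')
  have hcm : ((w : ℤ) * j * l') ≡ c [ZMOD m] := by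
    unfold Int.ModEq
    rw [← hc, Int.emod_emod_of_dvd _ (dvd_refl _)]
  -- `a = x ^ c`
  have ha : Complex.exp (2 * Real.pi * Complex.I * j / k) = x ^ c := by
    rw [hxdef, ← Complex.exp_nat_mul]
    have h1 : (l : ℤ) * c ≡ w * j [ZMOD m] := by
      have h2 : (l : ℤ) * c ≡ l * ((w : ℤ) * j * l') [ZMOD m] := (hcm.symm).mul_left l
      have h3 : l * ((w : ℤ) * j * l') = (l * l') * (w * j) := by ring
      rw [h3] at h2
      have h4 : (l * l') * ((w : ℤ) * j) ≡ 1 * (w * j) [ZMOD m] := hl'.mul_right _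
      rw [one_mul] at h4
      exact h2.trans h4
    obtain ⟨u, hu⟩ := Int.modEq_iff_dvd.1 h1
    have h5 : (w : ℤ) * j = l * c + m * u := by linarith
    rw [Complex.exp_eq_exp_iff_exists_int]
    refine ⟨u, ?_⟩
    have h6 : (w : ℂ) * j = l * c + m * u := by exact_mod_cast h5
    have hmc : (m : ℂ) = k * w := by rw [hw]; push_cast; ring
    have hkc : (k : ℂ) ≠ 0 := by exact_mod_cast hk0
    have hwc : (w : ℂ) ≠ 0 := by
      intro h0
      rw [h0, mul_zero] at hmc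
      exact hm0 (by exact_mod_cast hmc)
    have hmc0 : (m : ℂ) ≠ 0 := by exact_mod_cast hm0
    field_simp
    rw [hmc] at h6 ⊢
    linear_combination (k : ℂ) * h6
  rw [ha]
  have hdvd : m ∣ c + r + 1 ∨ m ∣ c + r + 2 := by
    have h0 : s₀ + c ≡ 0 [ZMOD m] := by
      have h1 : s₀ + c ≡ -((w : ℤ) * j * l') + ((w : ℤ) * j * l') [ZMOD m] := hs₀.add hcm.symm
      rwa [neg_add_cancel] at h1
    rcases hr with h | h
    · left
      have h1 : (c : ℤ) + r + 1 ≡ 0 [ZMOD m] := by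
        have h2 : (c : ℤ) + r + 1 ≡ c + (s₀ - 1) + 1 [ZMOD m] := (h.add_left _).add_right _
        have h3 : (c : ℤ) + (s₀ - 1) + 1 = s₀ + c := by ring
        rw [h3] at h2
        exact h2.trans h0
      have h4 := (Int.modEq_zero_iff_dvd.1 h1)
      exact_mod_cast h4
    · right
      have h1 : (c : ℤ) + r + 2 ≡ 0 [ZMOD m] := by
        have h2 : (c : ℤ) + r + 2 ≡ c + (s₀ - 2) + 2 [ZMOD m] := (h.add_left _).add_right _
        have h3 : (c : ℤ) + (s₀ - 2) + 2 = s₀ + c := by ring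
        rw [h3] at h2
        exact h2.trans h0
      have h4 := (Int.modEq_zero_iff_dvd.1 h1)
      exact_mod_cast h4
  obtain ⟨lam, hlam, heig, hne⟩ := main hx ht (by omega) c r hdvd
  refine ⟨lam, ?_, ?_⟩
  · have h5 : ((√5 : ℝ) : ℂ) ^ 2 = 5 := by
      rw [← Complex.ofReal_pow, Real.sq_sqrt (by norm_num)]
      norm_num
    have h6 : (lam - (1 + ((√5 : ℝ) : ℂ)) / 2) * (lam - (1 - ((√5 : ℝ) : ℂ)) / 2) = 0 := by
      linear_combination hlam - h5 / 4
    rcases mul_eq_zero.1 h6 with h7 | h7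
    · left; linear_combination h7
    · right; linear_combination h7
  · rw [Module.End.hasEigenvector_iff, Module.End.mem_eigenspace_iff, Matrix.toLin'_apply]
    exact ⟨heig, hne⟩

end Pool.Agent.Results.MP_b3b2bb_nt.EigenvectorApproximants
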